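import Pool.Agent.Lib.H98V.T4

/-!
# H98V, chunk T5: the twin table, five points

PROOF. `none` is not among the five points: `T.ok5`. `none` is one of them and `some x` is not: the values are those of
`T` with `none` replaced by `x` (`tw3` with `c, d ≠ x`): `T.ok5`. Both are among them, with three other points `a b c`: the fifteen
values are: the pairs containing both `none` and `some x` in one edge: false; `X x a b c`, `X x b a c`, `X x c a b` for the
quadruples without `some x` and (the same values) without `none` (at most one of them is true: `T.one`); and `tw1` of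
the ordered pairs of `a, b, c`. The six numbers `btw π (ρ a) (ρ b)` .. come from an order of four different reals: one of 24
cases (or: `btw π (ρ b) (ρ d)` is `(lt π d && lt d b) || (lt b d && lt d π)`). For each of the 20 positions of
`none`, `some x` among the five arguments: `decide` on these Booleans. (Or prove that `ok5` is invariant under the four
adjacent transpositions of the points, by `decide +kernel`, then one position is enough.)
-/

set_option autoImplicit false
set_option linter.unusedSectionVars false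
set_option linter.unusedSimpArgs false

namespace H98V

open Finset H53P

variable {V : Type} [DecidableEq V]

/-- the conditions on five points -/
private def K5 {W : Type} (X : W → W → W → W → Bool) (a b c d e : W) : Prop :=
  ok5 (X a b c d) (X a c b d) (X a d b c) (X a b c e) (X a c b e) (X a e b c) (X a b d e) (X a d b e) (X a e b d) (X a c d e) (X a d c e) (X a e c d) (X b c d e) (X b d c e) (X b e c d) = true

/-- symmetric crossing functions -/
private structure Sy {W : Type} (X : W → W → W → W → Bool) : Prop where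
  x1 : ∀ a b c d, X a b c d = X b a c d
  x4 : ∀ a b c d, X a b c d = X c d a b

private theorem Sy.x2 {W : Type} {X : W → W → W → W → Bool} (h : Sy X) (a b c d : W) :
    X a b c d = X a b d c := by
  rw [h.x4 a b c d, h.x1 c d a b, h.x4 d c a b]

private theorem b_s0 : ∀ b0 b1 b2 b3 b4 b5 b6 b7 b8 b9 b10 b11 b12 b13 b14 : Bool,
    ok5 b0 b2 b1 b3 b5 b4 b6 b8 b7 b12 b13 b14 b9 b10 b11 = true →
      ok5 b0 b1 b2 b3 b4 b5 b6 b7 b8 b9 b10 b11 b12 b13 b14 = true := by
  decide +kernel

private theorem Sy.s0 {W : Type} {X : W → W → W → W → Bool} (h : Sy X) {a b c d e : W}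
    (hk : K5 X b a c d e) : K5 X a b c d e := by
  unfold K5 at hk ⊢
  rw [h.x1 b a c d, h.x4 b c a d, h.x4 b d a c, h.x1 b a c e, h.x4 b c a e, h.x4 b e a c, h.x1 b a d e, h.x4 b d a e, h.x4 b e a d] at hk
  exact b_s0 _ _ _ _ _ _ _ _ _ _ _ _ _ _ _ hk

private theorem b_s1 : ∀ b0 b1 b2 b3 b4 b5 b6 b7 b8 b9 b10 b11 b12 b13 b14 : Bool,
    ok5 b1 b0 b2 b4 b3 b5 b9 b10 b11 b6 b7 b8 b12 b14 b13 = true →
      ok5 b0 b1 b2 b3 b4 b5 b6 b7 b8 b9 b10 b11 b12 b13 b14 = true := by
  decide +kernel

private theorem Sy.s1 {W : Type} {X : W → W → W → W → Bool} (h : Sy X) {a b c d e : W}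
    (hk : K5 X a c b d e) : K5 X a b c d e := by
  unfold K5 at hk ⊢
  rw [h.x2 a d c b, h.x2 a e c b, h.x1 c b d e, h.x4 c d b e, h.x4 c e b d] at hk
  exact b_s1 _ _ _ _ _ _ _ _ _ _ _ _ _ _ _ hk

private theorem b_s2 : ∀ b0 b1 b2 b3 b4 b5 b6 b7 b8 b9 b10 b11 b12 b13 b14 : Bool,
    ok5 b0 b2 b1 b6 b7 b8 b3 b4 b5 b10 b9 b11 b13 b12 b14 = true →
      ok5 b0 b1 b2 b3 b4 b5 b6 b7 b8 b9 b10 b11 b12 b13 b14 = true := by
  decide +kernel

private theorem Sy.s2 {W : Type} {X : W → W → W → W → Bool} (h : Sy X) {a b c d e : W}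
    (hk : K5 X a b d c e) : K5 X a b c d e := by
  unfold K5 at hk ⊢
  rw [h.x2 a b d c, h.x2 a e d c, h.x2 b e d c] at hk
  exact b_s2 _ _ _ _ _ _ _ _ _ _ _ _ _ _ _ hk

private theorem b_s3 : ∀ b0 b1 b2 b3 b4 b5 b6 b7 b8 b9 b10 b11 b12 b13 b14 : Bool,
    ok5 b3 b4 b5 b0 b1 b2 b6 b8 b7 b9 b11 b10 b12 b14 b13 = true →
      ok5 b0 b1 b2 b3 b4 b5 b6 b7 b8 b9 b10 b11 b12 b13 b14 = true := by
  decide +kernel

private theorem Sy.s3 {W : Type} {X : W → W → W → W → Bool} (h : Sy X) {a b c d e : W}
    (hk : K5 X a b c e d) : K5 X a b c d e := by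
  unfold K5 at hk ⊢
  rw [h.x2 a b e d, h.x2 a c e d, h.x2 b c e d] at hk
  exact b_s3 _ _ _ _ _ _ _ _ _ _ _ _ _ _ _ hk

/-- the values for an order of four different reals -/
private theorem b_fin (p q r : Bool) (h1 : (p && q) = false) (h2 : (p && r) = false) (h3 : (q && r) = false)
    {w x y z : ℝ} (g1 : w ≠ x) (g2 : w ≠ y) (g3 : w ≠ z) (g4 : x ≠ y) (g5 : x ≠ z) (g6 : y ≠ z) :
    ok5 false (btw w x y) (btw w y x) false (btw w x z) (btw w z x) false (btw w y z) (btw w z y)
      p q r p q r = true := by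
  have hb : ∀ a b c : ℝ, btw a b c = ((decide (a < c) && decide (c < b)) || (decide (b < c) && decide (c < a))) := by
    intro a b c
    unfold H53P.btw
    simp only [Bool.decide_and]
  rcases lt_or_gt_of_ne g1 with a1 | a1 <;> rcases lt_or_gt_of_ne g2 with a2 | a2 <;>
  rcases lt_or_gt_of_ne g3 with a3 | a3 <;> rcases lt_or_gt_of_ne g4 with a4 | a4 <;>
  rcases lt_or_gt_of_ne g5 with a5 | a5 <;> rcases lt_or_gt_of_ne g6 with a6 | a6 <;>
  first
  | (exfalso; linarith)
  | (simp only [hb, a1, a2, a3, a4, a5, a6, not_lt.2 a1.le, not_lt.2 a2.le, not_lt.2 a3.le, not_lt.2 a4.le,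
      not_lt.2 a5.le, not_lt.2 a6.le, decide_true, decide_false, Bool.and_true, Bool.true_and, Bool.and_false,
      Bool.false_and, Bool.or_true, Bool.true_or, Bool.or_false, Bool.false_or, Bool.and_self, Bool.or_self]
     revert p q r
     decide)

private theorem five_both (T : Table V) {x : V} {ρ : V → ℝ} (hρ : RotAt T x ρ) {π : ℝ}
    (hπ : ∀ d, d ≠ x → ρ d ≠ π) {c d e : V} (hc : c ≠ x) (hd : d ≠ x) (he : e ≠ x) (h1 : c ≠ d) (h2 : c ≠ e)
    (h3 : d ≠ e) : K5 (twX T.X x ρ π) none (some x) (some c) (some d) (some e) := by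
  have hz : ∀ y z : V, T.X x x y z = false := by
    intro y z
    cases h : T.X x x y z with
    | false => rfl
    | true => exact absurd rfl (T.ne _ _ _ _ h).1
  have e0 : ∀ y z : V, y ≠ x → z ≠ x → twX T.X x ρ π none (some x) (some y) (some z) = false := by
    intro y z hy hz'
    simp only [twX, tw3, if_neg hy, if_neg hz']
    exact hz y z
  have e1 : ∀ y z : V, y ≠ x → z ≠ x → y ≠ z →
      twX T.X x ρ π none (some y) (some x) (some z) = btw π (ρ y) (ρ z) := by
    intro y z hy hz' hyz
    simp only [twX, tw3, tw1, if_true, hy, hz', hyz, ne_eq, not_false_eq_true, and_self, decide_true,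
      Bool.true_and]
  have e2 : ∀ y z w : V, z ≠ x → w ≠ x → twX T.X x ρ π none (some y) (some z) (some w) = T.X x y z w := by
    intro y z w hz' hw
    simp only [twX, tw3, if_neg hz', if_neg hw]
  unfold K5
  rw [e0 c d hc hd, e1 c d hc hd h1, e1 d c hd hc h1.symm, e0 c e hc he, e1 c e hc he h2, e1 e c he hc h2.symm,
    e0 d e hd he, e1 d e hd he h3, e1 e d he hd h3.symm, e2 c d e hd he, e2 d c e hc he, e2 e c d hc hd]
  have hnn : ∀ b : Bool, (!b) = true → b = false := by decide
  have k1 : (T.X x c d e && T.X x d c e) = false := hnn _ (T.k4a x c d e)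
  have k2 : (T.X x c d e && T.X x e c d) = false := hnn _ (T.k4b x c d e)
  have k3 : (T.X x d c e && T.X x e c d) = false := hnn _ (T.k4c x c d e)
  exact b_fin _ _ _ k1 k2 k3 (hπ c hc).symm (hπ d hd).symm (hπ e he).symm
    (fun h => h1 (hρ.1 _ _ hc hd h)) (fun h => h2 (hρ.1 _ _ hc he h)) (fun h => h3 (hρ.1 _ _ hd he h))

private theorem sy_tw (T : Table V) (x : V) (ρ : V → ℝ) (π : ℝ) : Sy (twX T.X x ρ π) :=
  ⟨tw_symm1 T x ρ π, tw_symm2 T x ρ π⟩

private theorem five_none (T : Table V) {x : V} {ρ : V → ℝ} (hρ : RotAt T x ρ) {π : ℝ}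
    (hπ : ∀ d, d ≠ x → ρ d ≠ π) {b c d e : V} (h5 : b ≠ c) (h6 : b ≠ d) (h7 : b ≠ e) (h8 : c ≠ d) (h9 : c ≠ e)
    (h10 : d ≠ e) : K5 (twX T.X x ρ π) none (some b) (some c) (some d) (some e) := by
  have hs := sy_tw T x ρ π
  by_cases hb : b = x
  · subst hb
    exact five_both T hρ hπ h5.symm h6.symm h7.symm h8 h9 h10
  by_cases hc : c = x
  · subst hc
    exact hs.s1 (five_both T hρ hπ h5 h8.symm h9.symm h6 h7 h10)
  by_cases hd : d = x
  · subst hd
    exact hs.s2 (hs.s1 (five_both T hρ hπ h6 h8 h10.symm h5 h7 h9))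
  by_cases he : e = x
  · subst he
    exact hs.s3 (hs.s2 (hs.s1 (five_both T hρ hπ h7 h9 h10 h5 h6 h8)))
  have e2 : ∀ y z w : V, z ≠ x → w ≠ x → twX T.X x ρ π none (some y) (some z) (some w) = T.X x y z w := by
    intro y z w hz' hw
    simp only [twX, tw3, if_neg hz', if_neg hw]
  have e3 : ∀ y z u w : V, twX T.X x ρ π (some u) (some y) (some z) (some w) = T.X u y z w := fun _ _ _ _ => rfl
  unfold K5
  rw [e2 b c d hc hd, e2 c b d hb hd, e2 d b c hb hc, e2 b c e hc he, e2 c b e hb he, e2 e b c hb hc,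
    e2 b d e hd he, e2 d b e hb he, e2 e b d hb hd, e2 c d e hd he, e2 d c e hc he, e2 e c d hc hd]
  exact T.ok5 (Ne.symm hb) (Ne.symm hc) (Ne.symm hd) (Ne.symm he) h5 h6 h7 h8 h9 h10

theorem tw_five (T : Table V) {x : V} {ρ : V → ℝ} (hρ : RotAt T x ρ) {π : ℝ}
    (hπ : ∀ d, d ≠ x → ρ d ≠ π) (X : Option V → Option V → Option V → Option V → Bool)
    (hX : X = twX T.X x ρ π) (a b c d e : Option V) (h1 : a ≠ b) (h2 : a ≠ c) (h3 : a ≠ d)
    (h4 : a ≠ e) (h5 : b ≠ c) (h6 : b ≠ d) (h7 : b ≠ e) (h8 : c ≠ d) (h9 : c ≠ e) (h10 : d ≠ e) :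
    ok5 (X a b c d) (X a c b d) (X a d b c) (X a b c e) (X a c b e) (X a e b c) (X a b d e) (X a d b e)
      (X a e b d) (X a c d e) (X a d c e) (X a e c d) (X b c d e) (X b d c e) (X b e c d) = true := by
  subst hX
  have hs := sy_tw T x ρ π
  have hn : ∀ y z : V, some y ≠ some z → y ≠ z := fun y z h h' => h (congrArg some h')
  show K5 (twX T.X x ρ π) a b c d e
  cases a with
  | none =>
    cases b with
    | none => exact absurd rfl h1
    | some b =>
      cases c with
      | none => exact absurd rfl h2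
      | some c =>
        cases d with
        | none => exact absurd rfl h3
        | some d =>
          cases e with
          | none => exact absurd rfl h4
          | some e => exact five_none T hρ hπ (hn _ _ h5) (hn _ _ h6) (hn _ _ h7) (hn _ _ h8) (hn _ _ h9) (hn _ _ h10)
  | some a =>
    cases b with
    | none =>
      cases c with
      | none => exact absurd rfl h5
      | some c =>
        cases d with
        | none => exact absurd rfl h6
        | some d =>
          cases e with
          | none => exact absurd rfl h7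
          | some e =>
            exact hs.s0 (five_none T hρ hπ (hn _ _ h2) (hn _ _ h3) (hn _ _ h4) (hn _ _ h8) (hn _ _ h9) (hn _ _ h10))
    | some b =>
      cases c with
      | none =>
        cases d with
        | none => exact absurd rfl h8
        | some d =>
          cases e with
          | none => exact absurd rfl h9
          | some e =>
            exact hs.s1 (hs.s0 (five_none T hρ hπ (hn _ _ h1) (hn _ _ h3) (hn _ _ h4) (hn _ _ h6) (hn _ _ h7)
              (hn _ _ h10)))
      | some c =>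
        cases d with
        | none =>
          cases e with
          | none => exact absurd rfl h10
          | some e =>
            exact hs.s2 (hs.s1 (hs.s0 (five_none T hρ hπ (hn _ _ h1) (hn _ _ h2) (hn _ _ h4) (hn _ _ h5)
              (hn _ _ h7) (hn _ _ h9))))
        | some d =>
          cases e with
          | none =>
            exact hs.s3 (hs.s2 (hs.s1 (hs.s0 (five_none T hρ hπ (hn _ _ h1) (hn _ _ h2) (hn _ _ h3) (hn _ _ h5)
              (hn _ _ h6) (hn _ _ h8)))))
          | some e =>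
            exact T.ok5 (hn _ _ h1) (hn _ _ h2) (hn _ _ h3) (hn _ _ h4) (hn _ _ h5) (hn _ _ h6) (hn _ _ h7)
              (hn _ _ h8) (hn _ _ h9) (hn _ _ h10)

end H98V
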