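import Pool.Agent.Lib.H98V.T4

/-!
# H98V, chunk T6: the twin table, the sides of a triangle

PROOF. If two of `x1, y1, z1` are equal: trivial by symmetry (`crTX .. x x = false`, `crTX .. x y = crTX .. y x`).
`none` is not among the six points: `T.tri`. `none` is, `some x` is not: `T.tri` with `none` replaced by `x`.
Both in the same triple: the terms with the edge `none - some x` are false, the others cancel in pairs
(`X' none p q r = X x p q r` for `q, r ≠ x`). `none = a`, `some x = x1` (up to symmetry, `b, c, y, z` the others): the sum is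
`altX T.X x b c y z ^^ (btw π b y ^^ btw π c y) ^^ (btw π b z ^^ btw π c z)` (reals `ρ ..`), and
`btw π b y ^^ btw π c y = btw b c y` for different reals, so it is false by `hρ.2`.
-/

set_option autoImplicit false
set_option linter.unusedSectionVars false

namespace H98V

open Finset H53P

variable {V : Type} [DecidableEq V]

section T6

variable {W : Type} (X : W → W → W → W → Bool)

private def SX (a b c x y z : W) : Bool :=
  ((crTX X a b c x y ^^ crTX X a b c y z) ^^ crTX X a b c z x)

private theorem SX_rotA (a b c x y z : W) : SX X a b c x y z = SX X b c a x y z := by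
  unfold SX crTX
  simp only [Bool.xor_comm, Bool.xor_left_comm]

private theorem SX_rotB (a b c x y z : W) : SX X a b c x y z = SX X a b c y z x := by
  unfold SX crTX
  simp only [Bool.xor_comm, Bool.xor_left_comm]

private theorem SX_swap (h : ∀ u v p q, X u v p q = X p q u v) (a b c x y z : W) :
    SX X a b c x y z = SX X x y z a b c := by
  unfold SX crTX
  rw [h x y a b, h x y b c, h x y c a, h y z a b, h y z b c, h y z c a, h z x a b, h z x b c,
    h z x c a]
  simp only [Bool.xor_comm, Bool.xor_left_comm]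

private theorem SX_same (h1 : ∀ u v p q, X u v p q = X v u p q) (h2 : ∀ u p q, X u u p q = false)
    (a b c x z : W) : SX X a b c x x z = false := by
  unfold SX crTX
  rw [h1 z x a b, h1 z x b c, h1 z x c a, h2, h2, h2]
  generalize X x z a b = A
  generalize X x z b c = B
  generalize X x z c a = C
  revert A B C
  decide

end T6

private theorem btw_cancel {p b c y : ℝ} (h1 : p ≠ y) (h2 : b ≠ y) (h3 : c ≠ y) :
    (H53P.btw p b y ^^ H53P.btw p c y) = H53P.btw b c y := by
  unfold H53P.btw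
  rcases lt_or_gt_of_ne h1 with k1 | k1 <;> rcases lt_or_gt_of_ne h2 with k2 | k2 <;>
    rcases lt_or_gt_of_ne h3 with k3 | k3 <;>
    simp [k1, k2, k3, k1.not_gt, k2.not_gt, k3.not_gt]

private theorem tw_main (T : Table V) {x : V} {ρ : V → ℝ} (hρ : RotAt T x ρ) {π : ℝ}
    (hπ : ∀ d, d ≠ x → ρ d ≠ π) {b c p q r : V} (hbc : b ≠ c) (hpb : p ≠ b) (hpc : p ≠ c)
    (hqb : q ≠ b) (hqc : q ≠ c) (hrb : r ≠ b) (hrc : r ≠ c) (hpq : p ≠ q) (hqr : q ≠ r)
    (hrp : r ≠ p) :
    SX (twX T.X x ρ π) none (some b) (some c) (some p) (some q) (some r) = false := by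
  have s1 := T.symm1
  have s2 := T.symm2
  have h34 : ∀ u v p q, T.X u v p q = T.X u v q p := fun u v p q => by
    rw [T.symm2 u v p q, T.symm1 p q u v, T.symm2 q p u v]
  have hd : ∀ u p q, T.X u u p q = false := fun u p q => by
    by_contra h
    exact (T.ne u u p q (by simpa using h)).1 rfl
  -- the case that the twin's vertex is one of the three points of the other triangle
  have key : ∀ q r : V, q ≠ b → q ≠ c → r ≠ b → r ≠ c → x ≠ b → x ≠ c → x ≠ q → q ≠ r → r ≠ x →
      SX (twX T.X x ρ π) none (some b) (some c) (some x) (some q) (some r) = false := by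
    intro q r hqb hqc hrb hrc hxb hxc hxq hqr hrx
    have e1 := hρ.2 b c q r hxb.symm hxc.symm hxq.symm hrx hbc hqb.symm hrb.symm hqc.symm hrc.symm hqr
    rw [← btw_cancel (hπ q hxq.symm).symm (fun h => hqb (hρ.1 q b hxq.symm hxb.symm h.symm))
        (fun h => hqc (hρ.1 q c hxq.symm hxc.symm h.symm)),
      ← btw_cancel (hπ r hrx).symm (fun h => hrb (hρ.1 r b hrx hxb.symm h.symm))
        (fun h => hrc (hρ.1 r c hrx hxc.symm h.symm))] at e1
    unfold SX crTX
    simp only [twX, tw3, tw1, if_true, hrx, hxq.symm, hxb.symm, hxc.symm, hqb.symm, hqc.symm, hrb.symm,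
      hrc.symm, if_false, ne_eq, not_false_eq_true, and_self, decide_true, Bool.true_and, and_true,
      if_true]
    unfold altX at e1
    rw [s2 x q b c, s2 q r b c, s2 r x b c, h34 b c r x]
    revert e1
    generalize T.X x b q r = A1
    generalize T.X x c q r = A2
    generalize T.X b c x q = A3
    generalize T.X b c x r = A4
    generalize T.X b c q r = A5
    generalize H53P.btw π (ρ b) (ρ q) = B1
    generalize H53P.btw π (ρ c) (ρ q) = B2
    generalize H53P.btw π (ρ b) (ρ r) = B3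
    generalize H53P.btw π (ρ c) (ρ r) = B4
    revert A1 A2 A3 A4 A5 B1 B2 B3 B4
    decide
  by_cases hxp : p = x
  · subst hxp
    exact key q r hqb hqc hrb hrc hpb hpc hpq hqr hrp
  by_cases hxq : q = x
  · subst hxq
    rw [SX_rotB]
    exact key r p hrb hrc hpb hpc hqb hqc hqr hrp hpq
  by_cases hxr : r = x
  · subst hxr
    rw [SX_rotB, SX_rotB]
    exact key p q hpb hpc hqb hqc hrb hrc hrp hpq hqr
  unfold SX crTX
  simp only [twX, tw3, hxp, hxq, hxr, if_false]
  by_cases hxb : b = x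
  · subst hxb
    rw [hd, hd, hd, s2 p q b c, s2 q r b c, s2 r p b c]
    generalize T.X b c p q = A
    generalize T.X b c q r = B
    generalize T.X b c r p = C
    revert A B C
    decide
  by_cases hxc : c = x
  · subst hxc
    rw [hd, hd, hd, s2 p q b c, s2 q r b c, s2 r p b c, s1 b c p q, s1 b c q r, s1 b c r p]
    generalize T.X c b p q = A
    generalize T.X c b q r = B
    generalize T.X c b r p = C
    revert A B C
    decide
  have e := T.tri x b c (Ne.symm hxb) hbc hxc p q r hxp hpb hpc hxq hqb hqc hxr hrb hrc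
  unfold crTX at e
  rw [s2 x b p q, s2 x b q r, s2 x b r p, s2 x c p q, s2 x c q r, s2 x c r p,
    h34 p q x c, h34 q r x c, h34 r p x c]
  exact e

theorem tw_tri (T : Table V) {x : V} {ρ : V → ℝ} (hρ : RotAt T x ρ) {π : ℝ}
    (hπ : ∀ d, d ≠ x → ρ d ≠ π) : ∀ a b c, a ≠ b → b ≠ c → c ≠ a → ∀ x1 y1 z1, x1 ≠ a → x1 ≠ b →
    x1 ≠ c → y1 ≠ a → y1 ≠ b → y1 ≠ c → z1 ≠ a → z1 ≠ b → z1 ≠ c →
    ((crTX (twX T.X x ρ π) a b c x1 y1 ^^ crTX (twX T.X x ρ π) a b c y1 z1) ^^
      crTX (twX T.X x ρ π) a b c z1 x1) = false := by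
  intro a b c hab hbc hca p q r hpa hpb hpc hqa hqb hqc hra hrb hrc
  have s1 := tw_symm1 T x ρ π
  have s2 := tw_symm2 T x ρ π
  have h34 : ∀ u v p q, twX T.X x ρ π u v p q = twX T.X x ρ π u v q p := fun u v p q => by
    rw [s2 u v p q, s1 p q u v, s2 q p u v]
  have hd : ∀ u p q, twX T.X x ρ π u u p q = false := fun u p q => by
    by_contra h
    exact (tw_ne T x ρ π u u p q (by simpa using h)).1 rfl
  change SX (twX T.X x ρ π) a b c p q r = false
  by_cases hpq : p = q
  · subst hpq
    exact SX_same _ s1 hd a b c p r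
  by_cases hqr : q = r
  · subst hqr
    rw [SX_rotB]
    exact SX_same _ s1 hd a b c q p
  by_cases hrp : r = p
  · subst hrp
    rw [SX_rotB, SX_rotB]
    exact SX_same _ s1 hd a b c r q
  have main : ∀ a b c p q r : Option V, a = none → a ≠ b → b ≠ c → c ≠ a → p ≠ a → p ≠ b → p ≠ c →
      q ≠ a → q ≠ b → q ≠ c → r ≠ a → r ≠ b → r ≠ c → p ≠ q → q ≠ r → r ≠ p →
      SX (twX T.X x ρ π) a b c p q r = false := by
    intro a b c p q r ha hab hbc hca hpa hpb hpc hqa hqb hqc hra hrb hrc hpq hqr hrp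
    subst ha
    obtain ⟨b, rfl⟩ := Option.ne_none_iff_exists'.1 hab.symm
    obtain ⟨c, rfl⟩ := Option.ne_none_iff_exists'.1 hca
    obtain ⟨p, rfl⟩ := Option.ne_none_iff_exists'.1 hpa
    obtain ⟨q, rfl⟩ := Option.ne_none_iff_exists'.1 hqa
    obtain ⟨r, rfl⟩ := Option.ne_none_iff_exists'.1 hra
    have g : ∀ u v : V, (some u : Option V) ≠ some v → u ≠ v := fun u v h h' => h (by rw [h'])
    exact tw_main T hρ hπ (g _ _ hbc) (g _ _ hpb) (g _ _ hpc) (g _ _ hqb) (g _ _ hqc) (g _ _ hrb)
      (g _ _ hrc) (g _ _ hpq) (g _ _ hqr) (g _ _ hrp)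
  by_cases ha : a = none
  · exact main a b c p q r ha hab hbc hca hpa hpb hpc hqa hqb hqc hra hrb hrc hpq hqr hrp
  by_cases hb : b = none
  · rw [SX_rotA]
    exact main b c a p q r hb hbc hca hab hpb hpc hpa hqb hqc hqa hrb hrc hra hpq hqr hrp
  by_cases hc : c = none
  · rw [SX_rotA, SX_rotA]
    exact main c a b p q r hc hca hab hbc hpc hpa hpb hqc hqa hqb hrc hra hrb hpq hqr hrp
  by_cases hp : p = none
  · rw [SX_swap _ s2]
    exact main p q r a b c hp hpq hqr hrp hpa.symm hqa.symm hra.symm hpb.symm hqb.symm hrb.symm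
      hpc.symm hqc.symm hrc.symm hab hbc hca
  by_cases hq : q = none
  · rw [SX_swap _ s2, SX_rotA]
    exact main q r p a b c hq hqr hrp hpq hqa.symm hra.symm hpa.symm hqb.symm hrb.symm hpb.symm
      hqc.symm hrc.symm hpc.symm hab hbc hca
  by_cases hr : r = none
  · rw [SX_swap _ s2, SX_rotA, SX_rotA]
    exact main r p q a b c hr hrp hpq hqr hra.symm hpa.symm hqa.symm hrb.symm hpb.symm hqb.symm
      hrc.symm hpc.symm hqc.symm hab hbc hca
  obtain ⟨a, rfl⟩ := Option.ne_none_iff_exists'.1 ha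
  obtain ⟨b, rfl⟩ := Option.ne_none_iff_exists'.1 hb
  obtain ⟨c, rfl⟩ := Option.ne_none_iff_exists'.1 hc
  obtain ⟨p, rfl⟩ := Option.ne_none_iff_exists'.1 hp
  obtain ⟨q, rfl⟩ := Option.ne_none_iff_exists'.1 hq
  obtain ⟨r, rfl⟩ := Option.ne_none_iff_exists'.1 hr
  have g : ∀ u v : V, (some u : Option V) ≠ some v → u ≠ v := fun u v h h' => h (by rw [h'])
  exact T.tri a b c (g _ _ hab) (g _ _ hbc) (g _ _ hca) p q r (g _ _ hpa) (g _ _ hpb) (g _ _ hpc)
    (g _ _ hqa) (g _ _ hqb) (g _ _ hqc) (g _ _ hra) (g _ _ hrb) (g _ _ hrc)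

end H98V
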