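import Pool.Agent.Lib.H98V.DT

/-!
# H98V, file T8: the values of the twin table
-/

set_option autoImplicit false
set_option linter.unusedSectionVars false

namespace H98V

open H53P

variable {V : Type} [DecidableEq V]

theorem twX_old (X : V → V → V → V → Bool) (x : V) (ρ : V → ℝ) (π : ℝ) (a b c d : V) :
    twX X x ρ π (some a) (some b) (some c) (some d) = X a b c d := rfl

theorem twX_par (X : V → V → V → V → Bool) {x : V} (ρ : V → ℝ) (π : ℝ) (b : V) {c d : V}
    (hc : c ≠ x) (hd : d ≠ x) : twX X x ρ π none (some b) (some c) (some d) = X x b c d := by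
  show tw3 X x ρ π b c d = X x b c d
  unfold tw3
  rw [if_neg hc, if_neg hd]

theorem twX_x (X : V → V → V → V → Bool) {x : V} (ρ : V → ℝ) (π : ℝ) {b d : V} (hb : b ≠ x)
    (hd : d ≠ x) (hbd : b ≠ d) : twX X x ρ π none (some b) (some x) (some d) = btw π (ρ b) (ρ d) := by
  show tw3 X x ρ π b x d = btw π (ρ b) (ρ d)
  unfold tw3 tw1
  rw [if_pos rfl, decide_eq_true ⟨hb, hd, hbd⟩, Bool.true_and]

theorem twX_short (T : Table V) (x : V) (ρ : V → ℝ) (π : ℝ) (c d : Option V) :
    twX T.X x ρ π none (some x) c d = false := by
  cases c with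
  | none => cases d <;> rfl
  | some c =>
    cases d with
    | none => rfl
    | some d =>
      show tw3 T.X x ρ π x c d = false
      unfold tw3 tw1
      by_cases hc : c = x
      · rw [if_pos hc, decide_eq_false (fun h => h.1 rfl), Bool.false_and]
      · by_cases hd : d = x
        · rw [if_neg hc, if_pos hd, decide_eq_false (fun h => h.1 rfl), Bool.false_and]
        · rw [if_neg hc, if_neg hd]
          cases h : T.X x x c d with
          | false => rfl
          | true => exact absurd rfl (T.ne _ _ _ _ h).1

end H98V
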