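import Pool.Agent.Lib.H98V.T1
import Pool.Agent.Lib.H98V.T2
import Pool.Agent.Lib.H98V.T5
import Pool.Agent.Lib.H98V.T6
import Pool.Agent.Lib.H98V.T8

/-!
# H98V, file T7: the twin table is a table
-/

set_option autoImplicit false
set_option linter.unusedSectionVars false

namespace H98V

open Finset H53P

variable {V : Type} [Fintype V] [DecidableEq V]

theorem twin_table (T : Table V) {x : V} {ρ : V → ℝ} (hρ : RotAt T x ρ) {π : ℝ}
    (hπ : ∀ d, d ≠ x → ρ d ≠ π) : ∃ T' : Table (Option V), T'.X = twX T.X x ρ π := by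
  obtain ⟨P, hP⟩ : ∃ P : H30P.PT (Option V), P.X = twX T.X x ρ π :=
    ⟨{ X := twX T.X x ρ π
       symm1 := tw_symm1 T x ρ π
       symm2 := tw_symm2 T x ρ π
       ne := tw_ne T x ρ π
       five := fun a b c d e h1 h2 h3 h4 h5 h6 h7 h8 h9 h10 =>
        tw_five T hρ hπ _ rfl a b c d e h1 h2 h3 h4 h5 h6 h7 h8 h9 h10
       tri := tw_tri T hρ hπ }, rfl⟩
  refine ⟨⟨P.X, P.symm1, P.symm2, P.ne, ?_, fun u w h => pt_rot P u w h, P.tri, pt_sep P⟩, hP⟩
  rw [hP]
  exact tw_one T hρ hπ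

/-- A vertex can be doubled at every position of its rotation. -/
theorem twin_spec (T : Table V) {x : V} {ρ : V → ℝ} (hρ : RotAt T x ρ) {π : ℝ}
    (hπ : ∀ d, d ≠ x → ρ d ≠ π) : ∃ T' : Table (Option V),
      (∀ a b c d, T'.X (some a) (some b) (some c) (some d) = T.X a b c d) ∧
      (∀ b c d, c ≠ x → d ≠ x → T'.X none (some b) (some c) (some d) = T.X x b c d) ∧
      (∀ c d, T'.X none (some x) c d = false) ∧
      ∀ b d, b ≠ x → d ≠ x → b ≠ d → T'.X none (some b) (some x) (some d) = btw π (ρ b) (ρ d) := by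
  obtain ⟨T', hT'⟩ := twin_table T hρ hπ
  refine ⟨T', ?_, ?_, ?_, ?_⟩
  · intro a b c d
    rw [hT']
    exact twX_old _ _ _ _ _ _ _ _
  · intro b c d hc hd
    rw [hT']
    exact twX_par _ _ _ _ hc hd
  · intro c d
    rw [hT']
    exact twX_short T x ρ π c d
  · intro b d hb hd hbd
    rw [hT']
    exact twX_x _ _ _ hb hd hbd

end H98V
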