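import Pool.Agent.Lib.H30P.Chk

/-!
# H98V, file DT: the twin table, definitions

A vertex `x` of a table `T` gets a twin `none`, placed at the position `π` in a cut `ρ` of the rotation at `x`. The edge
from the twin to `b` runs along the edge `x b`; on its way around `x` it crosses the edges `x d` with `ρ d` strictly
between `π` and `ρ b`.
-/

set_option autoImplicit false
set_option linter.unusedSectionVars false

namespace H98V

open H53P

variable {V : Type}

/-- `ρ` is an order of the rotation at `u` (cut somewhere). -/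
def RotAt (T : Table V) (u : V) (ρ : V → ℝ) : Prop :=
  (∀ x y, x ≠ u → y ≠ u → ρ x = ρ y → x = y) ∧
    ∀ a b x y, a ≠ u → b ≠ u → x ≠ u → y ≠ u → a ≠ b → a ≠ x → a ≠ y → b ≠ x → b ≠ y → x ≠ y →
      altX T.X u a b x y = (btw (ρ a) (ρ b) (ρ x) ^^ btw (ρ a) (ρ b) (ρ y))

theorem exists_rotAt (T : Table V) {u w : V} (h : u ≠ w) :
    ∃ ρ, RotAt T u ρ ∧ ∀ x, x ≠ u → x ≠ w → ρ w < ρ x := by
  obtain ⟨ρ, h1, h2, h3⟩ := T.rot u w h
  exact ⟨ρ, ⟨h2, h3⟩, h1⟩

variable [DecidableEq V]

/-- the edge from the twin of `x` to `b` and the edge `xd` cross -/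
noncomputable def tw1 (x : V) (ρ : V → ℝ) (π : ℝ) (b d : V) : Bool :=
  decide (b ≠ x ∧ d ≠ x ∧ b ≠ d) && btw π (ρ b) (ρ d)

/-- the edge from the twin of `x` to `b` and the edge `cd` cross -/
noncomputable def tw3 (X : V → V → V → V → Bool) (x : V) (ρ : V → ℝ) (π : ℝ) (b c d : V) : Bool :=
  if c = x then tw1 x ρ π b d else if d = x then tw1 x ρ π b c else X x b c d

/-- the crossings after adding the twin `none` of `x`, placed at `π` in the rotation `ρ` at `x` -/
noncomputable def twX (X : V → V → V → V → Bool) (x : V) (ρ : V → ℝ) (π : ℝ) :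
    Option V → Option V → Option V → Option V → Bool
  | some a, some b, some c, some d => X a b c d
  | none, some b, some c, some d => tw3 X x ρ π b c d
  | some b, none, some c, some d => tw3 X x ρ π b c d
  | some c, some d, none, some b => tw3 X x ρ π b c d
  | some c, some d, some b, none => tw3 X x ρ π b c d
  | _, _, _, _ => false

end H98V
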