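import Pool.Agent.Lib.H98V.DT

/-!
# H98V, chunk T1: rotations from the conditions on five and six points

PROOF. Write `al (a b x y) := altX P.X u a b x y` for points different from `u`.
(1) `al a b x y = al x y a b` (symm1, symm2). ADDITIVITY: `al a b x y ^^ al a b y z = al a b x z` for `a, b, x, y, z`
different from each other and from `u`: this is `P.tri` for the triangle `u a b` and the points `x y z` (the terms
`X a b u x` etc. cancel). By symmetry also in the first pair.
(2) five points (`P.five`, unfold ok5, decide on the 15 Booleans or use the corresponding clauses c15, c16 of `H53P.ok5`):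
for four different points `a b c d` (all different from `u`) exactly one of `al a b c d`, `al a c b d`, `al a d b c` is true.
(3) Put `be a b c := al w a b c` (it means: `b` and `c` are on different sides of `a` in the order cut at `w`). If `V` has
at most one point `a0` besides `u`, `w`: trivial. Choose `a0` (and `c0`) different from `u`, `w`. Define for `b` different
from `u`, `w`: `lt b a0 := be a0 b c0` if `b` is not `a0`, `c0`; `lt c0 a0 := false`; `lt a0 b := !lt b a0`; and for
`b`, `c` both different from `a0`: `lt c b := be b a0 c ^^ lt a0 b`. By (1), (2): `lt b c = !lt c b` for `b ≠ c`, and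
`be b a c = (lt a b ^^ lt c b)` for all different `a b c` (different from `u`, `w`).
Transitive: `lt b c`, `lt c d`, `lt d b` would give `be c b d = be d c b = true`, against (2).
(4) `ρ b := (number of c different from u, w with lt c b) + 1` for `b` different from `u`, `w`, `ρ w := 0`. Then
`ρ a < ρ b` iff `lt a b`. The last claim: `a = w`: (3). `b = w`, `x = w`, `y = w`: by symmetry (1). None is `w`:
`al a b x y = al w a x y ^^ al w b x y` (additivity in the first pair).
-/

set_option autoImplicit false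
set_option linter.unusedSectionVars false

namespace H98V

open Finset H53P

variable {V : Type}

private theorem t1_sw1 (P : H30P.PT V) (u a b x y : V) : altX P.X u a b x y = altX P.X u b a x y := by
  unfold altX
  rw [P.symm1 b a u x, P.symm1 b a u y, P.symm1 b a x y]
  cases P.X u a x y <;> cases P.X u b x y <;> rfl

private theorem t1_sw (P : H30P.PT V) (a b x y : V) : P.X a b x y = P.X a b y x := by
  rw [P.symm2 a b x y, P.symm1 x y a b, P.symm2 y x a b]

private theorem t1_sw2 (P : H30P.PT V) (u a b x y : V) : altX P.X u a b x y = altX P.X u a b y x := by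
  unfold altX
  rw [t1_sw P u a y x, t1_sw P u b y x, t1_sw P a b y x]
  cases P.X a b u x <;> cases P.X a b u y <;> simp

private theorem t1_sym (P : H30P.PT V) (u a b x y : V) : altX P.X u a b x y = altX P.X u x y a b := by
  unfold altX
  rw [P.symm2 u x a b, P.symm2 u y a b, P.symm2 x y u a, P.symm2 x y u b, P.symm2 x y a b]
  cases P.X u a x y <;> cases P.X u b x y <;> cases P.X a b u x <;> cases P.X a b u y <;>
    cases P.X a b x y <;> rfl

private theorem t1_add (P : H30P.PT V) {u a b x y z : V} (hab : a ≠ b) (hau : a ≠ u) (hbu : b ≠ u)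
    (hxu : x ≠ u) (hxa : x ≠ a) (hxb : x ≠ b) (hyu : y ≠ u) (hya : y ≠ a) (hyb : y ≠ b)
    (hzu : z ≠ u) (hza : z ≠ a) (hzb : z ≠ b) :
    (altX P.X u a b x y ^^ altX P.X u a b y z) = altX P.X u a b x z := by
  have h := P.tri u a b (Ne.symm hau) hab hbu x y z hxu hxa hxb hyu hya hyb hzu hza hzb
  unfold crTX at h
  rw [P.symm2 x y u a, P.symm2 x y a b, t1_sw P x y b u, P.symm2 x y u b,
    P.symm2 y z u a, P.symm2 y z a b, t1_sw P y z b u, P.symm2 y z u b,
    P.symm2 z x u a, P.symm2 z x a b, t1_sw P z x b u, P.symm2 z x u b,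
    t1_sw P u a z x, t1_sw P a b z x, t1_sw P u b z x] at h
  unfold altX
  revert h
  generalize P.X u a x y = q1
  generalize P.X u b x y = q2
  generalize P.X a b u x = q3
  generalize P.X a b u y = q4
  generalize P.X a b x y = q5
  generalize P.X u a y z = q6
  generalize P.X u b y z = q7
  generalize P.X a b u z = q8
  generalize P.X a b y z = q9
  generalize P.X u a x z = q10
  generalize P.X u b x z = q11
  generalize P.X a b x z = q12
  revert q1 q2 q3 q4 q5 q6 q7 q8 q9 q10 q11 q12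
  decide

private theorem t1_three (P : H30P.PT V) {u a b c d : V} (hau : a ≠ u) (hbu : b ≠ u) (hcu : c ≠ u)
    (hdu : d ≠ u) (hab : a ≠ b) (hac : a ≠ c) (had : a ≠ d) (hbc : b ≠ c) (hbd : b ≠ d) (hcd : c ≠ d) :
    ((altX P.X u a b c d ^^ altX P.X u a c b d) ^^ altX P.X u a d b c) = true ∧
      (altX P.X u a b c d && altX P.X u a c b d) = false := by
  have h := P.five u a b c d (Ne.symm hau) (Ne.symm hbu) (Ne.symm hcu) (Ne.symm hdu) hab hac had hbc hbd hcd
  unfold ok5 at h
  simp only [Bool.and_eq_true] at h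
  obtain ⟨-, -, -, -, -, -, -, -, -, -, -, -, -, -, -, h15, h16, -⟩ := h
  unfold altX
  rw [P.symm2 a b u c, P.symm2 a b u d, P.symm2 a c u b, P.symm2 a c u d, P.symm2 a d u b,
    P.symm2 a d u c]
  rw [Bool.not_eq_true'] at h16
  exact ⟨h15, h16⟩

/-- the order cut at `w` -/
private theorem t1_order (P : H30P.PT V) (u w : V) (h : u ≠ w) : ∃ lt : V → V → Bool,
    (∀ b c, b ≠ u → b ≠ w → c ≠ u → c ≠ w → b ≠ c → lt b c = !lt c b) ∧
    ∀ a b c, a ≠ u → a ≠ w → b ≠ u → b ≠ w → c ≠ u → c ≠ w → a ≠ b → b ≠ c → a ≠ c →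
      altX P.X u w b a c = (lt a b ^^ lt c b) := by
  classical
  by_cases ha0 : ∃ a0, a0 ≠ u ∧ a0 ≠ w
  swap
  · refine ⟨fun _ _ => false, fun b c hb hb' => absurd ⟨b, hb, hb'⟩ ha0,
      fun a b c ha ha' => absurd ⟨a, ha, ha'⟩ ha0⟩
  obtain ⟨a0, hu0, hw0⟩ := ha0
  have hwu := Ne.symm h
  -- the sides of `a0`
  obtain ⟨L, hL⟩ : ∃ L : V → Bool, ∀ b c, b ≠ u → b ≠ w → b ≠ a0 → c ≠ u → c ≠ w → c ≠ a0 → b ≠ c →
      altX P.X u w a0 b c = (L b ^^ L c) := by
    by_cases hc0 : ∃ c0, c0 ≠ u ∧ c0 ≠ w ∧ c0 ≠ a0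
    swap
    · exact ⟨fun _ => false, fun b c hb hb' hb'' => absurd ⟨b, hb, hb', hb''⟩ hc0⟩
    obtain ⟨c0, hc1, hc2, hc3⟩ := hc0
    refine ⟨fun b => if b = c0 then false else altX P.X u w a0 b c0, ?_⟩
    intro b c hb1 hb2 hb3 hc1' hc2' hc3' hbc
    by_cases e1 : b = c0
    · have e2 : c ≠ c0 := fun e => hbc (e1.trans e.symm)
      simp only [e1, if_true, if_neg e2, Bool.false_xor]
      exact t1_sw2 P u w a0 c0 c
    · by_cases e2 : c = c0
      · simp only [e2, if_true, if_neg e1, Bool.xor_false]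
      · simp only [if_neg e1, if_neg e2]
        rw [t1_sw2 P u w a0 c c0, t1_add P (Ne.symm hw0) hwu hu0 hb1 hb2 hb3 hc1 hc2 hc3 hc1' hc2' hc3']
  refine ⟨fun x y => if y = a0 then L x else if x = a0 then !L y else (altX P.X u w y a0 x ^^ !L y),
    ?_, ?_⟩
  · intro b c hb1 hb2 hc1 hc2 hbc
    by_cases e1 : b = a0
    · have e2 : c ≠ a0 := fun e => hbc (e1.trans e.symm)
      simp only [e1, if_true, if_neg e2]
    · by_cases e2 : c = a0
      · simp only [e2, if_true, if_neg e1, Bool.not_not]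
      · simp only [if_neg e1, if_neg e2]
        have h3 := (t1_three P hwu hu0 hb1 hc1 (Ne.symm hw0) (Ne.symm hb2) (Ne.symm hc2)
          (Ne.symm e1) (Ne.symm e2) hbc).1
        rw [hL b c hb1 hb2 e1 hc1 hc2 e2 hbc] at h3
        revert h3
        generalize altX P.X u w c a0 b = q1
        generalize altX P.X u w b a0 c = q2
        generalize L b = q3
        generalize L c = q4
        revert q1 q2 q3 q4
        decide
  · intro a b c ha1 ha2 hb1 hb2 hc1 hc2 hab hbc hac
    by_cases e1 : b = a0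
    · subst e1
      simp only [if_true]
      exact hL a c ha1 ha2 hab hc1 hc2 (Ne.symm hbc) hac
    · by_cases e2 : a = a0
      · have e3 : c ≠ a0 := fun e => hac (e2.trans e.symm)
        simp only [e2, if_true, if_neg e1, if_neg e3]
        cases altX P.X u w b a0 c <;> cases L b <;> rfl
      · by_cases e3 : c = a0
        · simp only [e3, if_true, if_neg e1, if_neg e2]
          rw [t1_sw2 P u w b a a0]
          cases altX P.X u w b a0 a <;> cases L b <;> rfl
        · simp only [if_neg e1, if_neg e2, if_neg e3]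
          have h4 := t1_add P (Ne.symm hb2) hwu hb1 ha1 ha2 hab hu0 hw0 (Ne.symm e1) hc1 hc2 (Ne.symm hbc)
          rw [← h4, t1_sw2 P u w b a a0]
          cases altX P.X u w b a0 a <;> cases altX P.X u w b a0 c <;> cases L b <;> rfl

private theorem t1_btw {a b x : ℝ} (h1 : x ≠ a) (h2 : x ≠ b) :
    btw a b x = (decide (x < a) ^^ decide (x < b)) := by
  unfold H53P.btw
  rcases lt_or_gt_of_ne h1 with h3 | h3 <;> rcases lt_or_gt_of_ne h2 with h4 | h4
  · simp [h3, h4, not_lt.2 h3.le, not_lt.2 h4.le]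
  · simp [h3, h4, not_lt.2 h3.le, not_lt.2 h4.le]
  · simp [h3, h4, not_lt.2 h3.le, not_lt.2 h4.le]
  · simp [h3, h4, not_lt.2 h3.le, not_lt.2 h4.le]

theorem pt_rot [Fintype V] [DecidableEq V] (P : H30P.PT V) (u w : V) (h : u ≠ w) : ∃ ρ : V → ℝ,
    (∀ x, x ≠ u → x ≠ w → ρ w < ρ x) ∧ (∀ x y, x ≠ u → y ≠ u → ρ x = ρ y → x = y) ∧
    ∀ a b x y, a ≠ u → b ≠ u → x ≠ u → y ≠ u → a ≠ b → a ≠ x → a ≠ y → b ≠ x → b ≠ y → x ≠ y →
      altX P.X u a b x y = (btw (ρ a) (ρ b) (ρ x) ^^ btw (ρ a) (ρ b) (ρ y)) := by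
  classical
  obtain ⟨lt, hanti, hbe⟩ := t1_order P u w h
  have hwu := Ne.symm h
  -- transitivity
  have htrans : ∀ b c d, b ≠ u → b ≠ w → c ≠ u → c ≠ w → d ≠ u → d ≠ w → b ≠ c → c ≠ d → b ≠ d →
      lt b c = true → lt c d = true → lt b d = true := by
    intro b c d hb1 hb2 hc1 hc2 hd1 hd2 hbc hcd hbd h1 h2
    obtain ⟨h3, h4⟩ := t1_three P hwu hb1 hc1 hd1 (Ne.symm hb2) (Ne.symm hc2) (Ne.symm hd2) hbc hbd hcd
    rw [hbe c b d hc1 hc2 hb1 hb2 hd1 hd2 (Ne.symm hbc) hbd hcd,
      hbe b c d hb1 hb2 hc1 hc2 hd1 hd2 hbc hcd hbd] at h3 h4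
    rw [hbe b d c hb1 hb2 hd1 hd2 hc1 hc2 hbd (Ne.symm hcd) hbc] at h3
    rw [hanti c b hc1 hc2 hb1 hb2 (Ne.symm hbc), hanti d b hd1 hd2 hb1 hb2 (Ne.symm hbd),
      hanti d c hd1 hd2 hc1 hc2 (Ne.symm hcd)] at h3 h4
    rw [h1, h2] at h3 h4
    revert h3 h4
    cases lt b d <;> simp
  let S : V → Finset V := fun x => univ.filter fun c => c ≠ u ∧ c ≠ w ∧ c ≠ x ∧ lt c x = true
  let ρ : V → ℝ := fun x => if x = w then 0 else ((S x).card : ℝ) + 1
  have hρw : ρ w = 0 := if_pos rfl
  have hρx : ∀ x, x ≠ w → ρ x = ((S x).card : ℝ) + 1 := fun x hx => if_neg hx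
  have hρpos : ∀ x, x ≠ w → 0 < ρ x := by
    intro x hx
    rw [hρx x hx]
    positivity
  have hlt : ∀ a b, a ≠ u → a ≠ w → b ≠ u → b ≠ w → a ≠ b → lt a b = true → ρ a < ρ b := by
    intro a b ha1 ha2 hb1 hb2 hab hl
    rw [hρx a ha2, hρx b hb2]
    have hcard : (S a).card < (S b).card := by
      apply Finset.card_lt_card
      rw [Finset.ssubset_iff_of_subset]
      · refine ⟨a, ?_, ?_⟩
        · simp only [S, mem_filter, mem_univ, true_and]
          exact ⟨ha1, ha2, hab, hl⟩
        · simp only [S, mem_filter, mem_univ, true_and]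
          rintro ⟨-, -, h3, -⟩
          exact h3 rfl
      · intro c hc
        simp only [S, mem_filter, mem_univ, true_and] at hc ⊢
        obtain ⟨h1, h2, h3, h4⟩ := hc
        have h5 : c ≠ b := by
          rintro rfl
          rw [hanti a c ha1 ha2 hb1 hb2 hab, h4] at hl
          exact absurd hl (by decide)
        exact ⟨h1, h2, h5, htrans c a b h1 h2 ha1 ha2 hb1 hb2 h3 hab h5 h4 hl⟩
    have : ((S a).card : ℝ) < ((S b).card : ℝ) := by exact_mod_cast hcard
    linarith
  have hdec : ∀ a b, a ≠ u → a ≠ w → b ≠ u → b ≠ w → a ≠ b → decide (ρ a < ρ b) = lt a b := by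
    intro a b ha1 ha2 hb1 hb2 hab
    cases hl : lt a b with
    | true => exact decide_eq_true (hlt a b ha1 ha2 hb1 hb2 hab hl)
    | false =>
      apply decide_eq_false
      have h1 : lt b a = true := by rw [hanti b a hb1 hb2 ha1 ha2 (Ne.symm hab), hl]; rfl
      exact not_lt.2 (hlt b a hb1 hb2 ha1 ha2 (Ne.symm hab) h1).le
  have hinj : ∀ x y, x ≠ u → y ≠ u → ρ x = ρ y → x = y := by
    intro x y hx hy hxy
    by_contra hne
    by_cases hxw : x = w
    · have hyw : y ≠ w := fun e => hne (hxw.trans e.symm)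
      have := hρpos y hyw
      rw [hxw, hρw] at hxy
      linarith
    · by_cases hyw : y = w
      · have := hρpos x hxw
        rw [hyw, hρw] at hxy
        linarith
      · cases hl : lt x y with
        | true =>
          have := hlt x y hx hxw hy hyw hne hl
          linarith
        | false =>
          have h1 : lt y x = true := by rw [hanti y x hy hyw hx hxw (Ne.symm hne), hl]; rfl
          have := hlt y x hy hyw hx hxw (Ne.symm hne) h1
          linarith
  -- the case that the first point is `w`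
  have hw1 : ∀ b x y, b ≠ u → b ≠ w → x ≠ u → x ≠ w → y ≠ u → y ≠ w → b ≠ x → b ≠ y → x ≠ y →
      altX P.X u w b x y = (decide (ρ x < ρ b) ^^ decide (ρ y < ρ b)) := by
    intro b x y hb1 hb2 hx1 hx2 hy1 hy2 hbx hby hxy
    rw [hdec x b hx1 hx2 hb1 hb2 (Ne.symm hbx), hdec y b hy1 hy2 hb1 hb2 (Ne.symm hby)]
    exact hbe x b y hx1 hx2 hb1 hb2 hy1 hy2 (Ne.symm hbx) hby hxy
  have hwlt : ∀ x, x ≠ w → decide (ρ w < ρ x) = true := by
    intro x hx
    rw [hρw]
    exact decide_eq_true (hρpos x hx)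
  have hltw : ∀ x, x ≠ w → decide (ρ x < ρ w) = false := by
    intro x hx
    rw [hρw]
    exact decide_eq_false (not_lt.2 (hρpos x hx).le)
  have hflip : ∀ x y, x ≠ u → y ≠ u → x ≠ y → decide (ρ x < ρ y) = !decide (ρ y < ρ x) := by
    intro x y hx hy hxy
    rcases lt_or_gt_of_ne (fun e => hxy (hinj x y hx hy e) : ρ x ≠ ρ y) with h1 | h1
    · simp [h1, not_lt.2 h1.le]
    · simp [h1, not_lt.2 h1.le]
  refine ⟨ρ, fun x _ hx => by rw [hρw]; exact hρpos x hx, hinj, ?_⟩
  intro a b x y ha hb hx hy hab hax hay hbx hby hxy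
  rw [t1_btw (fun e => hax (hinj x a hx ha e).symm) (fun e => hbx (hinj x b hx hb e).symm),
    t1_btw (fun e => hay (hinj y a hy ha e).symm) (fun e => hby (hinj y b hy hb e).symm)]
  by_cases haw : a = w
  · subst haw
    rw [hw1 b x y hb (Ne.symm hab) hx (Ne.symm hax) hy (Ne.symm hay) hbx hby hxy, hltw x (Ne.symm hax),
      hltw y (Ne.symm hay), Bool.false_xor, Bool.false_xor]
  by_cases hbw : b = w
  · subst hbw
    rw [t1_sw1 P u a b x y, hw1 a x y ha hab hx (Ne.symm hbx) hy (Ne.symm hby) hax hay hxy,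
      hltw x (Ne.symm hbx), hltw y (Ne.symm hby), Bool.xor_false, Bool.xor_false]
  by_cases hxw : x = w
  · subst hxw
    rw [t1_sym P u a b x y, hw1 y a b hy (Ne.symm hxy) ha hax hb hbx (Ne.symm hay) (Ne.symm hby) hab,
      hwlt a hax, hwlt b hbx, hflip a y ha hy hay, hflip b y hb hy hby]
    cases decide (ρ y < ρ a) <;> cases decide (ρ y < ρ b) <;> rfl
  by_cases hyw : y = w
  · subst hyw
    rw [t1_sym P u a b x y, t1_sw1 P u x y a b,
      hw1 x a b hx hxy ha hay hb hby (Ne.symm hax) (Ne.symm hbx) hab,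
      hwlt a hay, hwlt b hby, hflip a x ha hx hax, hflip b x hb hx hbx]
    cases decide (ρ x < ρ a) <;> cases decide (ρ x < ρ b) <;> rfl
  · have h1 := t1_add P hxy hx hy ha hax hay hwu (Ne.symm hxw) (Ne.symm hyw) hb hbx hby
    rw [t1_sym P u a b x y, ← h1, t1_sw2 P u x y a w, t1_sym P u x y w a, t1_sym P u x y w b,
      hw1 a x y ha haw hx hxw hy hyw hax hay hxy, hw1 b x y hb hbw hx hxw hy hyw hbx hby hxy]
    cases decide (ρ x < ρ a) <;> cases decide (ρ x < ρ b) <;> cases decide (ρ y < ρ a) <;>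
      cases decide (ρ y < ρ b) <;> rfl

end H98V
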