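import Pool.Agent.Lib.H98V.DT

/-!
# H98V, chunk T4: the twin table, simple axioms

PROOF. Cases on the four options; `T.symm1`, `T.symm2`, `T.ne`, `T.one`. In `tw_one` with the twin and `some x`: one of
`b`, `c` is not strictly between `π` and the other one.
-/

set_option autoImplicit false
set_option linter.unusedSectionVars false

namespace H98V

open Finset H53P

variable {V : Type} [DecidableEq V]

private theorem t4_swap (T : Table V) (x : V) (ρ : V → ℝ) (π : ℝ) (b c d : V) :
    tw3 T.X x ρ π b c d = tw3 T.X x ρ π b d c := by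
  unfold tw3
  by_cases hc : c = x
  · by_cases hd : d = x
    · rw [if_pos hc, if_pos hd, hc, hd]
    · rw [if_pos hc, if_neg hd, if_pos hc]
  · by_cases hd : d = x
    · rw [if_neg hc, if_pos hd, if_pos hd]
    · rw [if_neg hc, if_neg hd, if_neg hd, if_neg hc, T.symm2 x b c d, T.symm1 c d x b,
        T.symm2 d c x b]

private theorem t4_tw1 {x : V} {ρ : V → ℝ} {π : ℝ} {b d : V} (h : tw1 x ρ π b d = true) :
    b ≠ x ∧ d ≠ x ∧ b ≠ d ∧ btw π (ρ b) (ρ d) = true := by
  unfold tw1 at h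
  rw [Bool.and_eq_true, decide_eq_true_eq] at h
  exact ⟨h.1.1, h.1.2.1, h.1.2.2, h.2⟩

private theorem t4_ne (T : Table V) {x : V} {ρ : V → ℝ} {π : ℝ} {b c d : V}
    (h : tw3 T.X x ρ π b c d = true) : b ≠ c ∧ b ≠ d ∧ c ≠ d := by
  unfold tw3 at h
  by_cases hc : c = x
  · rw [if_pos hc] at h
    obtain ⟨h1, h2, h3, _⟩ := t4_tw1 h
    exact ⟨fun h4 => h1 (h4.trans hc), h3, fun h4 => h2 (h4.symm.trans hc)⟩
  · by_cases hd : d = x
    · rw [if_neg hc, if_pos hd] at h
      obtain ⟨h1, h2, h3, _⟩ := t4_tw1 h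
      exact ⟨h3, fun h4 => h1 (h4.trans hd), fun h4 => h2 (h4.trans hd)⟩
    · rw [if_neg hc, if_neg hd] at h
      obtain ⟨_, h2, _, _, h5, h6⟩ := T.ne _ _ _ _ h
      exact ⟨h5, h6, h2⟩

private theorem t4_btw {p b c : ℝ} (h1 : btw p b c = true) (h2 : btw p c b = true) : False := by
  unfold H53P.btw at h1 h2
  rw [Bool.or_eq_true, decide_eq_true_eq, decide_eq_true_eq] at h1 h2
  rcases h1 with h1 | h1 <;> rcases h2 with h2 | h2 <;> linarith [h1.1, h1.2, h2.1, h2.2]

private theorem t4_one (T : Table V) {x : V} {ρ : V → ℝ} {π : ℝ} {b c d : V}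
    (h : tw3 T.X x ρ π b c d = true) : tw3 T.X x ρ π c b d = false := by
  rw [Bool.eq_false_iff]
  intro hcon
  unfold tw3 at h hcon
  by_cases hc : c = x
  · rw [if_pos hc] at h
    obtain ⟨h1, h2, _, _⟩ := t4_tw1 h
    rw [if_neg h1, if_neg h2, hc] at hcon
    exact (T.ne _ _ _ _ hcon).1 rfl
  · by_cases hd : d = x
    · rw [if_neg hc, if_pos hd] at h
      obtain ⟨h1, h2, h3, h4⟩ := t4_tw1 h
      rw [if_neg h1, if_pos hd] at hcon
      exact t4_btw h4 (t4_tw1 hcon).2.2.2
    · rw [if_neg hc, if_neg hd] at h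
      have hbx : b ≠ x := fun h4 => (T.ne _ _ _ _ h).1 h4.symm
      rw [if_neg hbx, if_neg hd, T.one _ _ _ _ h] at hcon
      exact Bool.false_ne_true hcon

theorem tw_symm1 (T : Table V) (x : V) (ρ : V → ℝ) (π : ℝ) (a b c d : Option V) :
    twX T.X x ρ π a b c d = twX T.X x ρ π b a c d := by
  rcases a with _ | a <;> rcases b with _ | b <;> rcases c with _ | c <;> rcases d with _ | d <;>
    try rfl
  · exact t4_swap T x ρ π d a b
  · exact t4_swap T x ρ π c a b
  · exact T.symm1 a b c d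

theorem tw_symm2 (T : Table V) (x : V) (ρ : V → ℝ) (π : ℝ) (a b c d : Option V) :
    twX T.X x ρ π a b c d = twX T.X x ρ π c d a b := by
  rcases a with _ | a <;> rcases b with _ | b <;> rcases c with _ | c <;> rcases d with _ | d <;>
    try rfl
  exact T.symm2 a b c d

theorem tw_ne (T : Table V) (x : V) (ρ : V → ℝ) (π : ℝ) (a b c d : Option V)
    (h : twX T.X x ρ π a b c d = true) : a ≠ b ∧ c ≠ d ∧ a ≠ c ∧ a ≠ d ∧ b ≠ c ∧ b ≠ d := by
  have hs : ∀ {u v : V}, u ≠ v → some u ≠ some v := fun h1 h2 => h1 (Option.some_injective _ h2)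
  rcases a with _ | a <;> rcases b with _ | b <;> rcases c with _ | c <;> rcases d with _ | d <;>
    try exact absurd h Bool.false_ne_true
  · obtain ⟨h1, h2, h3⟩ := t4_ne T (b := b) (c := c) (d := d) h
    exact ⟨(Option.some_ne_none _).symm, hs h3, (Option.some_ne_none _).symm,
      (Option.some_ne_none _).symm, hs h1, hs h2⟩
  · obtain ⟨h1, h2, h3⟩ := t4_ne T (b := a) (c := c) (d := d) h
    exact ⟨Option.some_ne_none _, hs h3, hs h1, hs h2, (Option.some_ne_none _).symm,
      (Option.some_ne_none _).symm⟩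
  · obtain ⟨h1, h2, h3⟩ := t4_ne T (b := d) (c := a) (d := b) h
    exact ⟨hs h3, (Option.some_ne_none _).symm, Option.some_ne_none _, hs h1.symm,
      Option.some_ne_none _, hs h2.symm⟩
  · obtain ⟨h1, h2, h3⟩ := t4_ne T (b := c) (c := a) (d := b) h
    exact ⟨hs h3, Option.some_ne_none _, hs h1.symm, Option.some_ne_none _, hs h2.symm,
      Option.some_ne_none _⟩
  · obtain ⟨h1, h2, h3, h4, h5, h6⟩ := T.ne a b c d h
    exact ⟨hs h1, hs h2, hs h3, hs h4, hs h5, hs h6⟩

theorem tw_one (T : Table V) {x : V} {ρ : V → ℝ} (hρ : RotAt T x ρ) {π : ℝ}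
    (hπ : ∀ d, d ≠ x → ρ d ≠ π) (a b c d : Option V)
    (h : twX T.X x ρ π a b c d = true) : twX T.X x ρ π a c b d = false := by
  rcases a with _ | a <;> rcases b with _ | b <;> rcases c with _ | c <;> rcases d with _ | d <;>
    try exact absurd h Bool.false_ne_true
  · exact t4_one T (b := b) (c := c) (d := d) h
  · have h1 : tw3 T.X x ρ π a c d = true := h
    rw [t4_swap] at h1
    exact t4_one T h1
  · have h1 : tw3 T.X x ρ π d a b = true := h
    have h2 := t4_one T h1
    rw [t4_swap] at h2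
    exact h2
  · have h1 : tw3 T.X x ρ π c a b = true := h
    rw [t4_swap] at h1
    have h2 := t4_one T h1
    rw [t4_swap] at h2
    exact h2
  · exact T.one a b c d h

end H98V
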